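import Mathlib
import Pool.Agent.Q101.McLain

/-!
# MP_f6f6d4_al: a diagonal group of a characteristically simple group which is neither simple nor
FCR and preserves a Cartesian lattice
-/

set_option autoImplicit false

namespace Pool.Agent.Results.MP_f6f6d4_al.McLainSquare

open Pool.Agent.Q101

/-! ### Definitions -/

/-- The equivalence relation on `T ^ (m + 1)` whose classes are the right cosets `δ(T) x`. -/
def cosetSetoid (T : Type) [Group T] (m : ℕ) : Setoid (Fin (m + 1) → T) where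
  r x y := ∃ d : T, ∀ i, y i = d * x i
  iseqv :=
    { refl := fun x => ⟨1, fun i => (one_mul _).symm⟩
      symm := by
        rintro x y ⟨d, hd⟩
        exact ⟨d⁻¹, fun i => by rw [hd i, inv_mul_cancel_left]⟩
      trans := by
        rintro x y z ⟨d, hd⟩ ⟨d', hd'⟩
        exact ⟨d' * d, fun i => by rw [hd' i, hd i, mul_assoc]⟩ }

/-- The set `Ω` of right cosets of the diagonal subgroup of `T ^ (m + 1)`. -/
def Omega (T : Type) [Group T] (m : ℕ) : Type := Quotient (cosetSetoid T m)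

/-- The class of a tuple. -/
def cl {T : Type} [Group T] {m : ℕ} (x : Fin (m + 1) → T) : Omega T m := Quotient.mk _ x

/-- The diagonal group `D(T, m)`. -/
def diagonalGroup (T : Type) [Group T] (m : ℕ) : Subgroup (Equiv.Perm (Omega T m)) :=
  Subgroup.closure {g |
    (∃ s : Fin (m + 1) → T, ∀ x : Fin (m + 1) → T, g (cl x) = cl (fun i => x i * s i)) ∨
    (∃ α : T ≃* T, ∀ x : Fin (m + 1) → T, g (cl x) = cl (fun i => α (x i))) ∨
    (∃ σ : Equiv.Perm (Fin (m + 1)), ∀ x : Fin (m + 1) → T, g (cl x) = cl (fun i => x (σ i)))}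

/-- Two tuples lie in the same part of the partition `Q_J` of `Δ ^ n`. -/
def cartesianPart {Δ : Type} {n : ℕ} (J : Set (Fin n)) (u v : Fin n → Δ) : Prop :=
  ∀ i, i ∉ J → u i = v i

/-- The Cartesian lattice on `Δ ^ n` transported to `Ω`, as a set of equivalence relations. -/
def cartesianLattice {Ω Δ : Type} {n : ℕ} (e : Ω ≃ (Fin n → Δ)) : Set (Ω → Ω → Prop) :=
  {R | ∃ J : Set (Fin n), R = fun x y => cartesianPart J (e x) (e y)}

/-- The permutation group `G` on `Ω` preserves a Cartesian lattice. -/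
def PreservesCartesianLattice {Ω : Type} (G : Subgroup (Equiv.Perm Ω)) : Prop :=
  ∃ (Δ : Type) (n : ℕ) (e : Ω ≃ (Fin n → Δ)), Nontrivial Δ ∧ 2 ≤ n ∧
    ∀ g ∈ G, (fun (R : Ω → Ω → Prop) (x y : Ω) => R (g⁻¹ x) (g⁻¹ y)) '' cartesianLattice e =
      cartesianLattice e

/-- `T` is characteristically simple: it is nontrivial and `1` and `T` are its only
characteristic subgroups. -/
def CharSimple (T : Type) [Group T] : Prop :=
  Nontrivial T ∧ ∀ K : Subgroup T, K.Characteristic → K = ⊥ ∨ K = ⊤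

/-- `T` is an FCR-group: a power `S ^ k`, `k ≥ 1`, of a nonabelian simple group. -/
def IsFCR (T : Type) [Group T] : Prop :=
  ∃ (S : Type) (_ : Group S) (k : ℕ), IsSimpleGroup S ∧ (¬ ∀ a b : S, a * b = b * a) ∧ 1 ≤ k ∧
    Nonempty (T ≃* (Fin k → S))

/-! ### Automorphisms of a square -/

section aut

variable {A : Type} [Group A]

theorem split_left (hint : ∀ N₁ N₂ : Subgroup A, N₁.Normal → N₂.Normal → N₁ ≠ ⊥ → N₂ ≠ ⊥ →
    N₁ ⊓ N₂ ≠ ⊥) (hZ : Subgroup.center A = ⊥) (α : A × A ≃* A × A) :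
    (∀ a, ∃ p, α (p, 1) = (a, 1)) ∨ (∀ a, ∃ q, α (1, q) = (a, 1)) := by
  have hcommut : ∀ p q : A, α (p, 1) * α (1, q) = α (1, q) * α (p, 1) := by
    intro p q
    rw [← map_mul, ← map_mul]
    congr 1
    ext <;> simp
  have hdec : ∀ p q : A, α (p, q) = α (p, 1) * α (1, q) := by
    intro p q
    rw [← map_mul]
    congr 1
    ext <;> simp
  have key : ∀ a : A, ∃ p q b c : A, α (p, 1) = (b, 1) ∧ α (1, q) = (c, 1) ∧ a = b * c := by
    intro a
    obtain ⟨⟨p, q⟩, hpq⟩ := α.surjective (a, 1)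
    rw [hdec] at hpq
    have h1 : (α (p, 1)).1 * (α (1, q)).1 = a := congrArg Prod.fst hpq
    have h2 : (α (p, 1)).2 * (α (1, q)).2 = 1 := congrArg Prod.snd hpq
    have h3 : (α (p, 1)).2 ∈ Subgroup.center A := by
      rw [Subgroup.mem_center_iff]
      intro z
      obtain ⟨⟨r, s⟩, hrs⟩ := α.surjective (1, z)
      rw [hdec] at hrs
      have h4 : (α (r, 1)).2 * (α (1, s)).2 = z := congrArg Prod.snd hrs
      have h5 : (α (p, 1)).2 * (α (1, s)).2 = (α (1, s)).2 * (α (p, 1)).2 :=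
        congrArg Prod.snd (hcommut p s)
      have h6 : (α (r, 1)).2 * (α (1, q)).2 = (α (1, q)).2 * (α (r, 1)).2 :=
        congrArg Prod.snd (hcommut r q)
      have h7 : (α (1, q)).2 = ((α (p, 1)).2)⁻¹ := by
        rw [eq_inv_iff_mul_eq_one]
        exact mul_eq_one_comm.1 h2
      rw [h7] at h6
      have h8 : (α (p, 1)).2 * (α (r, 1)).2 = (α (r, 1)).2 * (α (p, 1)).2 := by
        have h9 := congrArg (fun w => (α (p, 1)).2 * w * (α (p, 1)).2) h6
        simpa [mul_assoc] using h9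
      rw [← h4, mul_assoc, ← h5, ← mul_assoc, ← h8, mul_assoc]
    rw [hZ, Subgroup.mem_bot] at h3
    rw [h3, one_mul] at h2
    exact ⟨p, q, (α (p, 1)).1, (α (1, q)).1, Prod.ext rfl h3, Prod.ext rfl h2, h1.symm⟩
  let N₁ : Subgroup A :=
    { carrier := {a | ∃ p, α (p, 1) = (a, 1)}
      mul_mem' := by
        rintro a b ⟨p, hp⟩ ⟨q, hq⟩
        refine ⟨p * q, ?_⟩
        have : ((p * q, 1) : A × A) = (p, 1) * (q, 1) := by ext <;> simp
        rw [this, map_mul, hp, hq]
        ext <;> simp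
      one_mem' := ⟨1, map_one α⟩
      inv_mem' := by
        rintro a ⟨p, hp⟩
        refine ⟨p⁻¹, ?_⟩
        have : ((p⁻¹, 1) : A × A) = (p, 1)⁻¹ := by ext <;> simp
        rw [this, map_inv, hp]
        ext <;> simp }
  let N₂ : Subgroup A :=
    { carrier := {a | ∃ q, α (1, q) = (a, 1)}
      mul_mem' := by
        rintro a b ⟨p, hp⟩ ⟨q, hq⟩
        refine ⟨p * q, ?_⟩
        have : ((1, p * q) : A × A) = (1, p) * (1, q) := by ext <;> simp
        rw [this, map_mul, hp, hq]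
        ext <;> simp
      one_mem' := ⟨1, map_one α⟩
      inv_mem' := by
        rintro a ⟨p, hp⟩
        refine ⟨p⁻¹, ?_⟩
        have : ((1, p⁻¹) : A × A) = (1, p)⁻¹ := by ext <;> simp
        rw [this, map_inv, hp]
        ext <;> simp }
  have hN₁ : N₁.Normal := by
    constructor
    rintro a ⟨p, hp⟩ g
    obtain ⟨⟨r, s⟩, hrs⟩ := α.surjective (g, 1)
    refine ⟨r * p * r⁻¹, ?_⟩
    have : ((r * p * r⁻¹, 1) : A × A) = (r, s) * (p, 1) * (r, s)⁻¹ := by ext <;> simp
    rw [this, map_mul, map_mul, map_inv, hp, hrs]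
    ext <;> simp
  have hN₂ : N₂.Normal := by
    constructor
    rintro a ⟨q, hq⟩ g
    obtain ⟨⟨r, s⟩, hrs⟩ := α.surjective (g, 1)
    refine ⟨s * q * s⁻¹, ?_⟩
    have : ((1, s * q * s⁻¹) : A × A) = (r, s) * (1, q) * (r, s)⁻¹ := by ext <;> simp
    rw [this, map_mul, map_mul, map_inv, hq, hrs]
    ext <;> simp
  have hdisj : N₁ ⊓ N₂ = ⊥ := by
    rw [eq_bot_iff]
    rintro a ⟨⟨p, hp⟩, ⟨q, hq⟩⟩
    have h1 := α.injective (hp.trans hq.symm)
    have h2 : p = 1 := congrArg Prod.fst h1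
    rw [h2] at hp
    have h3 : α (1, 1) = 1 := map_one α
    rw [h3] at hp
    rw [Subgroup.mem_bot]
    exact (congrArg Prod.fst hp).symm
  by_cases hb : N₂ = ⊥
  · left
    intro a
    obtain ⟨p, q, b, c, hp, hq, rfl⟩ := key a
    have : c ∈ N₂ := ⟨q, hq⟩
    rw [hb, Subgroup.mem_bot] at this
    rw [this, mul_one]
    exact ⟨p, hp⟩
  · right
    have hb' : N₁ = ⊥ := by
      by_contra hb'
      exact hint N₁ N₂ hN₁ hN₂ hb' hb hdisj
    intro a
    obtain ⟨p, q, b, c, hp, hq, rfl⟩ := key a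
    have : b ∈ N₁ := ⟨p, hp⟩
    rw [hb', Subgroup.mem_bot] at this
    rw [this, one_mul]
    exact ⟨q, hq⟩

/-- The coordinate swap. -/
def sw : A × A ≃* A × A where
  toFun x := (x.2, x.1)
  invFun x := (x.2, x.1)
  left_inv _ := rfl
  right_inv _ := rfl
  map_mul' _ _ := rfl

theorem aut_straight (α : A × A ≃* A × A) (h1 : ∀ a, ∃ p, α (p, 1) = (a, 1))
    (h2 : ∀ a, ∃ q, α (1, q) = (1, a)) :
    ∃ α₁ α₂ : A ≃* A, ∀ x, α x = (α₁ x.1, α₂ x.2) := by
  have k1 : ∀ p, (α (p, 1)).2 = 1 := by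
    intro p
    obtain ⟨p', hp'⟩ := h1 (α (p, 1)).1
    obtain ⟨q, hq⟩ := h2 (α (p, 1)).2
    have h3 : α (p'⁻¹ * p, 1) = α (1, q) := by
      have : ((p'⁻¹ * p, 1) : A × A) = (p', 1)⁻¹ * (p, 1) := by ext <;> simp
      rw [this, map_mul, map_inv, hp', hq]
      ext <;> simp
    have h4 : (1 : A) = q := congrArg Prod.snd (α.injective h3)
    rw [← h4] at hq
    have h5 : α (1, 1) = 1 := map_one α
    rw [h5] at hq
    exact (congrArg Prod.snd hq).symm
  have k2 : ∀ q, (α (1, q)).1 = 1 := by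
    intro q
    obtain ⟨q', hq'⟩ := h2 (α (1, q)).2
    obtain ⟨p, hp⟩ := h1 (α (1, q)).1
    have h3 : α (1, q'⁻¹ * q) = α (p, 1) := by
      have : ((1, q'⁻¹ * q) : A × A) = (1, q')⁻¹ * (1, q) := by ext <;> simp
      rw [this, map_mul, map_inv, hq', hp]
      ext <;> simp
    have h4 : (1 : A) = p := congrArg Prod.fst (α.injective h3)
    rw [← h4] at hp
    have h5 : α (1, 1) = 1 := map_one α
    rw [h5] at hp
    exact (congrArg Prod.fst hp).symm
  let f₁ : A →* A := (MonoidHom.fst A A).comp (α.toMonoidHom.comp (MonoidHom.inl A A))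
  let f₂ : A →* A := (MonoidHom.snd A A).comp (α.toMonoidHom.comp (MonoidHom.inr A A))
  have e1 : ∀ p, α (p, 1) = (f₁ p, 1) := fun p => Prod.ext rfl (k1 p)
  have e2 : ∀ q, α (1, q) = (1, f₂ q) := fun q => Prod.ext (k2 q) rfl
  have b1 : Function.Bijective f₁ := by
    constructor
    · intro p p' h
      have : α (p, 1) = α (p', 1) := by rw [e1, e1, h]
      exact congrArg Prod.fst (α.injective this)
    · intro a
      obtain ⟨p, hp⟩ := h1 a
      exact ⟨p, congrArg Prod.fst hp⟩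
  have b2 : Function.Bijective f₂ := by
    constructor
    · intro p p' h
      have : α (1, p) = α (1, p') := by rw [e2, e2, h]
      exact congrArg Prod.snd (α.injective this)
    · intro a
      obtain ⟨p, hp⟩ := h2 a
      exact ⟨p, congrArg Prod.snd hp⟩
  refine ⟨MulEquiv.ofBijective f₁ b1, MulEquiv.ofBijective f₂ b2, ?_⟩
  rintro ⟨p, q⟩
  have : ((p, q) : A × A) = (p, 1) * (1, q) := by ext <;> simp
  rw [this, map_mul, e1, e2]
  ext <;> simp

theorem aut_prod [Nontrivial A] (hint : ∀ N₁ N₂ : Subgroup A, N₁.Normal → N₂.Normal → N₁ ≠ ⊥ →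
    N₂ ≠ ⊥ → N₁ ⊓ N₂ ≠ ⊥) (hZ : Subgroup.center A = ⊥) (α : A × A ≃* A × A) :
    (∃ α₁ α₂ : A ≃* A, ∀ x, α x = (α₁ x.1, α₂ x.2)) ∨
    (∃ α₁ α₂ : A ≃* A, ∀ x, α x = (α₁ x.2, α₂ x.1)) := by
  have s1 := split_left hint hZ α
  have s2 := split_left hint hZ (α.trans sw)
  have s2' : (∀ a, ∃ p, α (p, 1) = (1, a)) ∨ (∀ a, ∃ q, α (1, q) = (1, a)) := by
    rcases s2 with h | h
    · left
      intro a
      obtain ⟨p, hp⟩ := h a
      exact ⟨p, sw.injective hp⟩
    · right
      intro a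
      obtain ⟨p, hp⟩ := h a
      exact ⟨p, sw.injective hp⟩
  obtain ⟨z, hz⟩ := exists_ne (1 : A)
  rcases s1 with h1 | h1 <;> rcases s2' with h2 | h2
  · exfalso
    obtain ⟨q, hq⟩ : ∃ q, q = (α (1, z)) := ⟨_, rfl⟩
    obtain ⟨p1, hp1⟩ := h1 q.1
    obtain ⟨p2, hp2⟩ := h2 q.2
    have h3 : α (p1 * p2, 1) = α (1, z) := by
      have : ((p1 * p2, 1) : A × A) = (p1, 1) * (p2, 1) := by ext <;> simp
      rw [this, map_mul, hp1, hp2, ← hq]
      ext <;> simp
    exact hz (congrArg Prod.snd (α.injective h3)).symm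
  · exact Or.inl (aut_straight α h1 h2)
  · right
    have h3 : ∀ a, ∃ p, (sw.trans α) (p, 1) = (a, 1) := fun a => by
      obtain ⟨q, hq⟩ := h1 a
      exact ⟨q, hq⟩
    have h4 : ∀ a, ∃ q, (sw.trans α) (1, q) = (1, a) := fun a => by
      obtain ⟨p, hp⟩ := h2 a
      exact ⟨p, hp⟩
    obtain ⟨α₁, α₂, h5⟩ := aut_straight (sw.trans α) h3 h4
    refine ⟨α₁, α₂, fun x => ?_⟩
    exact h5 (x.2, x.1)
  · exfalso
    obtain ⟨q, hq⟩ : ∃ q, q = (α (z, 1)) := ⟨_, rfl⟩
    obtain ⟨p1, hp1⟩ := h1 q.1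
    obtain ⟨p2, hp2⟩ := h2 q.2
    have h3 : α (1, p1 * p2) = α (z, 1) := by
      have : ((1, p1 * p2) : A × A) = (1, p1) * (1, p2) := by ext <;> simp
      rw [this, map_mul, hp1, hp2, ← hq]
      ext <;> simp
    exact hz (congrArg Prod.fst (α.injective h3)).symm

end aut

/-! ### The Cartesian lattice -/

section lattice

variable {A : Type} [Group A]

/-- The components. -/
def pr (k : Fin 2) (x : A × A) : A := if k = 0 then x.1 else x.2

theorem pr_zero (x : A × A) : pr 0 x = x.1 := rfl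
theorem pr_one (x : A × A) : pr 1 x = x.2 := rfl
theorem pr_mul (k : Fin 2) (x y : A × A) : pr k (x * y) = pr k x * pr k y := by
  unfold pr; split_ifs <;> rfl

theorem cl_eq {T : Type} [Group T] {m : ℕ} {x y : Fin (m + 1) → T} :
    cl x = cl y ↔ ∃ d : T, ∀ i, y i = d * x i := by
  constructor
  · exact fun h => Quotient.exact h
  · exact fun h => Quotient.sound h

/-- The components of a point of `Ω(A × A)`. -/
def comp {m : ℕ} (x : Omega (A × A) m) (k : Fin 2) : Omega A m :=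
  Quotient.lift (fun x : Fin (m + 1) → A × A => (cl (fun i => pr k (x i)) : Omega A m)) (by
    rintro x y ⟨d, hd⟩
    apply cl_eq.2
    exact ⟨pr k d, fun i => by rw [hd i, pr_mul]⟩) x

theorem comp_cl {m : ℕ} (x : Fin (m + 1) → A × A) (k : Fin 2) :
    comp (cl x) k = cl (fun i => pr k (x i)) := rfl

theorem cl_surj {T : Type} [Group T] {m : ℕ} (x : Omega T m) : ∃ y : Fin (m + 1) → T, cl y = x :=
  Quotient.exists_rep x

theorem comp_bij {m : ℕ} : Function.Bijective (comp : Omega (A × A) m → Fin 2 → Omega A m) := by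
  constructor
  · intro x y h
    obtain ⟨x, rfl⟩ := cl_surj x
    obtain ⟨y, rfl⟩ := cl_surj y
    have h0 := congrFun h 0
    have h1 := congrFun h 1
    rw [comp_cl, comp_cl, cl_eq] at h0 h1
    obtain ⟨d, hd⟩ := h0
    obtain ⟨d', hd'⟩ := h1
    apply cl_eq.2
    exact ⟨(d, d'), fun i => Prod.ext (hd i) (hd' i)⟩
  · intro u
    obtain ⟨x, hx⟩ := cl_surj (u 0)
    obtain ⟨y, hy⟩ := cl_surj (u 1)
    refine ⟨cl (fun i => (x i, y i)), ?_⟩
    funext k
    rw [comp_cl]
    fin_cases k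
    · exact hx
    · exact hy

/-- The identification of `Ω(A × A)` with the square of `Ω(A)`. -/
noncomputable def eqv (m : ℕ) : Omega (A × A) m ≃ (Fin 2 → Omega A m) :=
  Equiv.ofBijective comp comp_bij

theorem pinv {X : Type*} (f : Equiv.Perm X) (x : X) : f (f⁻¹ x) = x := f.apply_symm_apply x

/-- Permutations respecting the two components up to a permutation of them. -/
def Good {Ω Δ : Type} {n : ℕ} (e : Ω ≃ (Fin n → Δ)) (g : Equiv.Perm Ω) : Prop :=
  ∃ σ : Equiv.Perm (Fin n), ∀ k x y, e (g x) k = e (g y) k ↔ e x (σ k) = e y (σ k)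

/-- The group of good permutations. -/
def goodGroup {Ω Δ : Type} {n : ℕ} (e : Ω ≃ (Fin n → Δ)) : Subgroup (Equiv.Perm Ω) where
  carrier := {g | Good e g}
  mul_mem' := by
    rintro g h ⟨σ, hσ⟩ ⟨τ, hτ⟩
    refine ⟨τ * σ, fun k x y => ?_⟩
    rw [Equiv.Perm.mul_apply, Equiv.Perm.mul_apply, Equiv.Perm.mul_apply, hσ, hτ]
  one_mem' := ⟨1, fun k x y => Iff.rfl⟩
  inv_mem' := by
    rintro g ⟨σ, hσ⟩
    refine ⟨σ⁻¹, fun k x y => ?_⟩
    have := hσ (σ⁻¹ k) (g⁻¹ x) (g⁻¹ y)
    rw [pinv, pinv, pinv] at this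
    exact this.symm

theorem good_lattice {Ω Δ : Type} {n : ℕ} (e : Ω ≃ (Fin n → Δ)) {g : Equiv.Perm Ω}
    (hg : Good e g) :
    (fun (R : Ω → Ω → Prop) (x y : Ω) => R (g⁻¹ x) (g⁻¹ y)) '' cartesianLattice e =
      cartesianLattice e := by
  obtain ⟨σ, hσ⟩ := (goodGroup e).inv_mem hg
  have key : ∀ J : Set (Fin n), (fun x y => cartesianPart J (e (g⁻¹ x)) (e (g⁻¹ y))) =
      fun x y => cartesianPart (σ '' J) (e x) (e y) := by
    intro J
    funext x y
    apply propext
    unfold cartesianPart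
    constructor
    · intro h i hi
      have h1 : σ⁻¹ i ∉ J := by
        intro h2
        exact hi ⟨_, h2, by rw [pinv]⟩
      have h3 := (hσ (σ⁻¹ i) x y).1 (h _ h1)
      rwa [pinv] at h3
    · intro h i hi
      apply (hσ i x y).2
      apply h
      rintro ⟨j, hj, hji⟩
      rw [σ.injective hji] at hj
      exact hi hj
  apply Set.Subset.antisymm
  · rintro _ ⟨_, ⟨J, rfl⟩, rfl⟩
    exact ⟨σ '' J, key J⟩
  · rintro _ ⟨J, rfl⟩
    refine ⟨_, ⟨(fun i => σ.symm i) '' J, rfl⟩, ?_⟩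
    show (fun x y => cartesianPart ((fun i => σ.symm i) '' J) (e (g⁻¹ x)) (e (g⁻¹ y))) = _
    rw [key]
    have : σ '' ((fun i => σ.symm i) '' J) = J := by
      rw [Set.image_image]
      simp
    rw [this]

theorem diagonal_good [Nontrivial A] (hint : ∀ N₁ N₂ : Subgroup A, N₁.Normal → N₂.Normal →
    N₁ ≠ ⊥ → N₂ ≠ ⊥ → N₁ ⊓ N₂ ≠ ⊥) (hZ : Subgroup.center A = ⊥) (m : ℕ) :
    diagonalGroup (A × A) m ≤ goodGroup (eqv m) := by
  unfold diagonalGroup
  rw [Subgroup.closure_le]
  rintro g (⟨s, hs⟩ | ⟨α, hα⟩ | ⟨σ, hσ⟩)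
  · refine ⟨1, fun k x y => ?_⟩
    obtain ⟨x, rfl⟩ := cl_surj x
    obtain ⟨y, rfl⟩ := cl_surj y
    show comp (g (cl x)) k = comp (g (cl y)) k ↔ comp (cl x) k = comp (cl y) k
    rw [hs, hs, comp_cl, comp_cl, comp_cl, comp_cl, cl_eq, cl_eq]
    apply exists_congr
    intro d
    apply forall_congr'
    intro i
    rw [pr_mul, pr_mul, ← mul_assoc, mul_left_inj]
  · rcases aut_prod hint hZ α with ⟨α₁, α₂, h⟩ | ⟨α₁, α₂, h⟩
    · refine ⟨1, fun k x y => ?_⟩
      obtain ⟨x, rfl⟩ := cl_surj x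
      obtain ⟨y, rfl⟩ := cl_surj y
      show comp (g (cl x)) k = comp (g (cl y)) k ↔ comp (cl x) k = comp (cl y) k
      rw [hα, hα, comp_cl, comp_cl, comp_cl, comp_cl, cl_eq, cl_eq]
      have hk : ∃ β : A ≃* A, ∀ x, pr k (α x) = β (pr k x) := by
        fin_cases k
        · exact ⟨α₁, fun x => congrArg Prod.fst (h x)⟩
        · exact ⟨α₂, fun x => congrArg Prod.snd (h x)⟩
      obtain ⟨β, hβ⟩ := hk
      constructor
      · rintro ⟨d, hd⟩
        refine ⟨β.symm d, fun i => ?_⟩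
        have := hd i
        rw [hβ, hβ] at this
        apply β.injective
        rw [this, map_mul, β.apply_symm_apply]
      · rintro ⟨d, hd⟩
        refine ⟨β d, fun i => ?_⟩
        rw [hβ, hβ, hd i, map_mul]
    · refine ⟨Equiv.swap 0 1, fun k x y => ?_⟩
      obtain ⟨x, rfl⟩ := cl_surj x
      obtain ⟨y, rfl⟩ := cl_surj y
      show comp (g (cl x)) k = comp (g (cl y)) k ↔
        comp (cl x) (Equiv.swap 0 1 k) = comp (cl y) (Equiv.swap 0 1 k)
      rw [hα, hα, comp_cl, comp_cl, comp_cl, comp_cl, cl_eq, cl_eq]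
      have hk : ∃ β : A ≃* A, ∀ x, pr k (α x) = β (pr (Equiv.swap 0 1 k) x) := by
        fin_cases k
        · exact ⟨α₁, fun x => congrArg Prod.fst (h x)⟩
        · exact ⟨α₂, fun x => congrArg Prod.snd (h x)⟩
      obtain ⟨β, hβ⟩ := hk
      constructor
      · rintro ⟨d, hd⟩
        refine ⟨β.symm d, fun i => ?_⟩
        have := hd i
        rw [hβ, hβ] at this
        apply β.injective
        rw [this, map_mul, β.apply_symm_apply]
      · rintro ⟨d, hd⟩
        refine ⟨β d, fun i => ?_⟩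
        rw [hβ, hβ, hd i, map_mul]
  · refine ⟨1, fun k x y => ?_⟩
    obtain ⟨x, rfl⟩ := cl_surj x
    obtain ⟨y, rfl⟩ := cl_surj y
    show comp (g (cl x)) k = comp (g (cl y)) k ↔ comp (cl x) k = comp (cl y) k
    rw [hσ, hσ, comp_cl, comp_cl, comp_cl, comp_cl, cl_eq, cl_eq]
    apply exists_congr
    intro d
    constructor
    · intro h i
      have := h (σ.symm i)
      rwa [σ.apply_symm_apply] at this
    · intro h i
      exact h (σ i)

theorem omega_nontrivial [Nontrivial A] {m : ℕ} (hm : 1 < m) : Nontrivial (Omega A m) := by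
  obtain ⟨z, hz⟩ := exists_ne (1 : A)
  refine ⟨cl (fun _ => 1), cl (fun i => if i = 0 then 1 else z), ?_⟩
  intro h
  obtain ⟨d, hd⟩ := cl_eq.1 h
  have h0 := hd 0
  rw [if_pos rfl, mul_one] at h0
  have h1 := hd (Fin.last m)
  rw [if_neg (by
    intro h
    have := congrArg Fin.val h
    rw [Fin.val_last] at this
    have h2 : ((0 : Fin (m + 1)) : ℕ) = 0 := rfl
    omega), ← h0, one_mul] at h1
  exact hz h1

end lattice

/-! ### The group -/

/-- A group with a nontrivial abelian normal subgroup is not an FCR-group. -/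
theorem not_fcr {T : Type} [Group T] (N : Subgroup T) (hN : N.Normal) (hne : N ≠ ⊥)
    (hab : ∀ x ∈ N, ∀ y ∈ N, x * y = y * x) : ¬ IsFCR T := by
  classical
  rintro ⟨S, _, k, hS, hna, _, ⟨φ⟩⟩
  obtain ⟨a, ha⟩ := Subgroup.ne_bot_iff_exists_ne_one.1 hne
  have ha1 : φ a.1 ≠ 1 := by
    intro h
    apply ha
    apply Subtype.ext
    exact φ.injective (h.trans (map_one φ).symm)
  obtain ⟨i, hi⟩ : ∃ i, φ a.1 i ≠ 1 := by
    by_contra hcon
    push Not at hcon
    exact ha1 (funext hcon)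
  -- the normal subgroup of `S`
  let K : Subgroup S :=
    { carrier := {s | φ.symm (Pi.mulSingle i s) ∈ N}
      mul_mem' := by
        intro s t hs ht
        show φ.symm (Pi.mulSingle i (s * t)) ∈ N
        rw [Pi.mulSingle_mul, map_mul]
        exact N.mul_mem hs ht
      one_mem' := by
        show φ.symm (Pi.mulSingle i 1) ∈ N
        rw [Pi.mulSingle_one, map_one]
        exact N.one_mem
      inv_mem' := by
        intro s hs
        show φ.symm (Pi.mulSingle i s⁻¹) ∈ N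
        rw [Pi.mulSingle_inv, map_inv]
        exact N.inv_mem hs }
  have hK : K.Normal := by
    constructor
    intro s hs g
    show φ.symm (Pi.mulSingle i (g * s * g⁻¹)) ∈ N
    rw [Pi.mulSingle_mul, Pi.mulSingle_mul, Pi.mulSingle_inv, map_mul, map_mul, map_inv]
    exact hN.conj_mem _ hs _
  have hKab : ∀ s ∈ K, ∀ t ∈ K, s * t = t * s := by
    intro s hs t ht
    have h1 := hab _ hs _ ht
    rw [← map_mul, ← map_mul, ← Pi.mulSingle_mul, ← Pi.mulSingle_mul] at h1
    exact Pi.mulSingle_injective i (φ.symm.injective h1)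
  rcases hK.eq_bot_or_eq_top with hb | ht
  · -- then `φ a i` is central
    have hcent : ∀ s : S, φ a.1 i * s = s * φ a.1 i := by
      intro s
      have h1 : φ a.1 i * s * (φ a.1 i)⁻¹ * s⁻¹ ∈ K := by
        show φ.symm (Pi.mulSingle i (φ a.1 i * s * (φ a.1 i)⁻¹ * s⁻¹)) ∈ N
        have h2 : Pi.mulSingle i (φ a.1 i * s * (φ a.1 i)⁻¹ * s⁻¹) =
            φ a.1 * (Pi.mulSingle i s * (φ a.1)⁻¹ * (Pi.mulSingle i s)⁻¹) := by
          funext j
          by_cases hj : j = i
          · subst hj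
            simp [mul_assoc]
          · simp [Pi.mulSingle_eq_of_ne hj]
        rw [h2, map_mul, map_mul, map_mul, map_inv, map_inv, φ.symm_apply_apply]
        exact N.mul_mem a.2 (hN.conj_mem _ (N.inv_mem a.2) _)
      rw [hb, Subgroup.mem_bot, mul_inv_eq_one, mul_inv_eq_iff_eq_mul] at h1
      exact h1
    have h3 : φ a.1 i ∈ Subgroup.center S := Subgroup.mem_center_iff.2 fun s => (hcent s).symm
    rcases (inferInstance : (Subgroup.center S).Normal).eq_bot_or_eq_top with hc | hc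
    · rw [hc, Subgroup.mem_bot] at h3
      exact hi h3
    · apply hna
      intro x y
      have : x ∈ Subgroup.center S := by rw [hc]; trivial
      exact (Subgroup.mem_center_iff.1 this y).symm
  · apply hna
    intro x y
    exact hKab x (by rw [ht]; trivial) y (by rw [ht]; trivial)

instance : Nontrivial McLain.McL :=
  ⟨McLain.t 0 1 (by norm_num), 1, McLain.t_ne_one _⟩

theorem charSimple_square : CharSimple (McLain.McL × McLain.McL) := by
  refine ⟨inferInstance, fun K hK => ?_⟩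
  by_cases hne : K = ⊥
  · exact Or.inl hne
  right
  have hinv : ∀ (φ : McLain.McL × McLain.McL ≃* McLain.McL × McLain.McL), ∀ x ∈ K, φ x ∈ K := by
    intro φ x hx
    have := (Subgroup.characteristic_iff_map_le.1 hK) φ
    exact this ⟨x, hx, rfl⟩
  have hnorm : K.Normal := inferInstance
  let K₁ : Subgroup McLain.McL := K.comap (MonoidHom.inl _ _)
  have hK₁ : K₁.Normal := inferInstance
  have hmem : ∀ a, a ∈ K₁ ↔ (a, 1) ∈ K := fun a => Iff.rfl
  have hmem2 : ∀ a, a ∈ K₁ ↔ (1, a) ∈ K := by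
    intro a
    rw [hmem]
    exact ⟨fun h => hinv sw _ h, fun h => hinv sw _ h⟩
  have hK₁ne : K₁ ≠ ⊥ := by
    intro hb
    apply hne
    rw [eq_bot_iff]
    rintro ⟨a, b⟩ hab
    have h1 : ∀ a b, (a, b) ∈ K → a = 1 := by
      intro a b hab
      have hc : a ∈ Subgroup.center McLain.McL := by
        rw [Subgroup.mem_center_iff]
        intro g
        have h2 : ((a, b) * ((g, 1) * (a, b)⁻¹ * (g, 1)⁻¹) : McLain.McL × McLain.McL) ∈ K :=
          K.mul_mem hab (hnorm.conj_mem _ (K.inv_mem hab) _)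
        have h3 : ((a, b) * ((g, 1) * (a, b)⁻¹ * (g, 1)⁻¹) : McLain.McL × McLain.McL) =
            (a * (g * a⁻¹ * g⁻¹), 1) := by
          ext <;> simp
        rw [h3, ← hmem, hb, Subgroup.mem_bot] at h2
        have h4 : a * g * a⁻¹ * g⁻¹ = 1 := by rw [← h2]; group
        rw [mul_inv_eq_one, mul_inv_eq_iff_eq_mul] at h4
        exact h4.symm
      rw [McLain.center_eq_bot, Subgroup.mem_bot] at hc
      exact hc
    have h2 := h1 a b hab
    have h3 := h1 b a (hinv sw _ hab)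
    rw [Subgroup.mem_bot, h2, h3]
    rfl
  have hK₁top : K₁ = ⊤ := by
    apply McLain.char_simple hK₁ hK₁ne
    intro f x hx
    rw [hmem]
    exact hinv (MulEquiv.prodCongr (McLain.autPerm f) (MulEquiv.refl _)) _ hx
  rw [eq_top_iff]
  rintro ⟨a, b⟩ _
  have : ((a, b) : McLain.McL × McLain.McL) = (a, 1) * (1, b) := by ext <;> simp
  rw [this]
  exact K.mul_mem ((hmem a).1 (by rw [hK₁top]; trivial)) ((hmem2 b).1 (by rw [hK₁top]; trivial))

/-- There are a nonabelian characteristically simple group `T`, neither simple nor an FCR-group,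
such that for every `m > 1` the diagonal group `D(T, m)` preserves a Cartesian lattice. -/
theorem result : ∃ (T : Type) (_ : Group T), (¬ ∀ a b : T, a * b = b * a) ∧ CharSimple T ∧
    ¬ IsSimpleGroup T ∧ ¬ IsFCR T ∧
    ∀ m : ℕ, 1 < m → PreservesCartesianLattice (diagonalGroup T m) := by
  refine ⟨McLain.McL × McLain.McL, inferInstance, ?_, charSimple_square, ?_, ?_, ?_⟩
  · intro h
    have h1 : (0 : ℚ) < 1 := by norm_num
    have h2 : (1 : ℚ) < 2 := by norm_num
    have h3 := McLain.t_comm h1 h2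
    have h4 := congrArg Prod.fst (h (McLain.t 0 1 h1, 1) (McLain.t 1 2 h2, 1))
    have h5 : McLain.t 0 1 h1 * McLain.t 1 2 h2 = McLain.t 1 2 h2 * McLain.t 0 1 h1 := h4
    rw [h5, mul_inv_cancel_right, mul_inv_cancel] at h3
    exact McLain.t_ne_one _ h3.symm
  · intro h
    let N : Subgroup (McLain.McL × McLain.McL) := (MonoidHom.fst McLain.McL McLain.McL).ker
    have hN : N.Normal := inferInstance
    obtain ⟨z, hz⟩ := exists_ne (1 : McLain.McL)
    rcases hN.eq_bot_or_eq_top with hb | ht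
    · have : ((1, z) : McLain.McL × McLain.McL) ∈ N := rfl
      rw [hb, Subgroup.mem_bot] at this
      exact hz (congrArg Prod.snd this)
    · have : ((z, 1) : McLain.McL × McLain.McL) ∈ N := by rw [ht]; trivial
      exact hz this
  · have hBn := McLain.B_normal
    let N : Subgroup (McLain.McL × McLain.McL) := McLain.B.prod ⊥
    have hN : N.Normal := inferInstance
    apply not_fcr N hN
    · intro hb
      apply McLain.B_ne_bot
      rw [eq_bot_iff]
      intro x hx
      have : ((x, 1) : McLain.McL × McLain.McL) ∈ N := ⟨hx, rfl⟩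
      rw [hb, Subgroup.mem_bot] at this
      exact congrArg Prod.fst this
    · rintro ⟨a, b⟩ ⟨ha, hb⟩ ⟨c, d⟩ ⟨hc, hd⟩
      have hb' : b = 1 := hb
      have hd' : d = 1 := hd
      rw [hb', hd']
      exact Prod.ext (McLain.B_comm ha hc) rfl
  · intro m hm
    refine ⟨Omega McLain.McL m, 2, eqv m, omega_nontrivial hm, le_rfl, fun g hg => ?_⟩
    apply good_lattice
    exact diagonal_good (fun N₁ N₂ h₁ h₂ h₃ h₄ => McLain.inter_ne_bot h₁ h₂ h₃ h₄)
      McLain.center_eq_bot m hg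

end Pool.Agent.Results.MP_f6f6d4_al.McLainSquare
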